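import Pool.Agent.MP_66cee2_co.XI.One

/-
Edges between a vector of Euclidean type and a vector of general type, on one line.
-/

namespace Pool.Agent.MP_66cee2_co.H83

open Polynomial Pool.Agent.MP_66cee2_co.XI

variable {n : ℕ}

theorem tay_top {r : ℝ[X]} {l : ℕ} (h : r.natDegree ≤ l) (c : ℝ) :
    (taylor c r).coeff l = r.coeff l := by
  rcases h.eq_or_lt with e | e
  · rw [← e]; exact coeff_taylor_natDegree c r
  · rw [coeff_eq_zero_of_natDegree_lt e,
      coeff_eq_zero_of_natDegree_lt (by rw [natDegree_taylor]; exact e)]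

theorem quo {U q R : ℝ[X]} {N m : ℕ} (h : U * q = R) (h1 : q.natDegree ≤ m) (h2 : q.coeff m ≠ 0)
    (hR : R.natDegree ≤ N + m) : U.natDegree ≤ N ∧ U.coeff N * q.coeff m = R.coeff (N + m) := by
  have hq : q ≠ 0 := fun e => h2 (by rw [e, coeff_zero])
  have e : q.natDegree = m := le_antisymm h1 (le_natDegree_of_ne_zero h2)
  have a : U.natDegree ≤ N := by
    by_cases hU : U = 0
    · simp [hU]
    · rw [← h, natDegree_mul hU hq] at hR; omega
  exact ⟨a, by rw [← h, coeff_mul_add_eq_of_natDegree_le a h1]⟩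

theorem rem {r : ℝ[X]} {m : ℕ} (h : r.degree < m) (c : ℝ) :
    (X * taylor c r).natDegree ≤ m ∧ (X * taylor c r).coeff m = (X * r).coeff m := by
  by_cases h0 : r = 0
  · simp [h0]
  have h1 : r.natDegree < m := (natDegree_lt_iff_degree_lt h0).2 h
  obtain ⟨l, rfl⟩ : ∃ l, m = l + 1 := ⟨m - 1, by omega⟩
  refine ⟨natDegree_mul_le.trans ?_, ?_⟩
  · rw [natDegree_taylor]; have := natDegree_X_le (R := ℝ); omega
  · rw [coeff_X_mul, coeff_X_mul, tay_top (by omega)]

theorem sum_top {p a : Fin n → ℝ[X]} {M m : ℕ} (hp : ∀ i, (p i).natDegree ≤ M)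
    (ha : ∀ i, (a i).natDegree ≤ m) : (∑ i, p i * a i).natDegree ≤ M + m ∧
      (∑ i, p i * a i).coeff (M + m) = ∑ i, (p i).coeff M * (a i).coeff m := by
  refine ⟨natDegree_sum_le_of_forall_le _ _ fun i _ =>
    natDegree_mul_le.trans (add_le_add (hp i) (ha i)), ?_⟩
  rw [finsetSum_coeff]
  exact Finset.sum_congr rfl fun i _ => coeff_mul_add_eq_of_natDegree_le (hp i) (ha i)

theorem core {p g r : Fin n → ℝ[X]} {t q : ℝ[X]} {M m : ℕ} {c : ℝ}
    (h : ∀ s, 2 * ∑ i, (p i).eval s * (g i * q + r i).eval (s + c) +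
      t.eval s * q.eval (s + c) = 0)
    (hp : ∀ i, (p i).natDegree ≤ M) (h1 : q.natDegree ≤ m) (h2 : q.coeff m ≠ 0)
    (hr : ∀ i, (r i).degree < m) :
    (X * (C 2 * ∑ i, p i * taylor c (g i) + t)).natDegree ≤ M ∧
      (X * (C 2 * ∑ i, p i * taylor c (g i) + t)).coeff M * q.coeff m =
        -2 * ∑ i, (p i).coeff M * (X * r i).coeff m := by
  have e : (X * (C 2 * ∑ i, p i * taylor c (g i) + t)) * taylor c q =
      C (-2) * ∑ i, p i * (X * taylor c (r i)) := by
    refine Polynomial.funext fun s => ?_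
    have := h s
    simp only [eval_mul, eval_add, eval_C, eval_X, eval_finsetSum, taylor_eval] at this ⊢
    have e1 : ∑ i, (p i).eval s * ((g i).eval (s + c) * q.eval (s + c) + (r i).eval (s + c)) =
        (∑ i, (p i).eval s * (g i).eval (s + c)) * q.eval (s + c) +
          ∑ i, (p i).eval s * (r i).eval (s + c) := by
      rw [Finset.sum_mul, ← Finset.sum_add_distrib]
      exact Finset.sum_congr rfl fun i _ => by ring
    have e2 : ∑ i, (p i).eval s * (s * (r i).eval (s + c)) =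
        s * ∑ i, (p i).eval s * (r i).eval (s + c) := by
      rw [Finset.mul_sum]
      exact Finset.sum_congr rfl fun i _ => by ring
    rw [e1] at this
    rw [e2]
    linear_combination s * this
  obtain ⟨s1, s2⟩ := sum_top hp fun i => (rem (hr i) c).1
  obtain ⟨a1, a2⟩ := quo e (by rw [natDegree_taylor]; exact h1) (by rw [tay_top h1]; exact h2)
    ((natDegree_C_mul_le _ _).trans s1)
  refine ⟨a1, ?_⟩
  rw [tay_top h1, coeff_C_mul, s2] at a2
  rw [a2]
  congr 1
  exact Finset.sum_congr rfl fun i _ => by rw [(rem (hr i) c).2]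

theorem both {p g r : Fin n → ℝ[X]} {t q : ℝ[X]} {M m : ℕ}
    (h : ∀ s y : ℝ, (y = s + 1 ∨ y = s - 1) →
      2 * ∑ i, (p i).eval s * (g i * q + r i).eval y + t.eval s * q.eval y = 0)
    (hp : ∀ i, (p i).natDegree ≤ M) (h1 : q.natDegree ≤ m) (h2 : q.coeff m ≠ 0)
    (hr : ∀ i, (r i).degree < m) :
    (X * (C 2 * ∑ i, p i * taylor 1 (g i) + t)).natDegree ≤ M ∧ ∀ k, M ≤ k →
      (X * ∑ i, p i * (taylor 1 (g i) - taylor (-1) (g i))).coeff k = 0 := by
  obtain ⟨a1, a2⟩ := core (c := 1) (fun s => h s _ (Or.inl rfl)) hp h1 h2 hr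
  obtain ⟨b1, b2⟩ := core (c := -1) (fun s => h s _ (Or.inr (by ring))) hp h1 h2 hr
  refine ⟨a1, fun k hk => ?_⟩
  have e : C 2 * (X * ∑ i, p i * (taylor 1 (g i) - taylor (-1) (g i))) =
      X * (C 2 * ∑ i, p i * taylor 1 (g i) + t) -
        X * (C 2 * ∑ i, p i * taylor (-1) (g i) + t) := by
    simp only [mul_sub, Finset.sum_sub_distrib]; ring
  have e2 := congrArg (fun f => coeff f k) e
  simp only [coeff_C_mul, coeff_sub] at e2
  rcases hk.eq_or_lt with rfl | hk
  · have := mul_right_cancel₀ h2 (a2.trans b2.symm)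
    linarith
  · rw [coeff_eq_zero_of_natDegree_lt (a1.trans_lt hk),
      coeff_eq_zero_of_natDegree_lt (b1.trans_lt hk)] at e2
    linarith

theorem tay_sub {g : ℝ[X]} {l : ℕ} (h : g.natDegree ≤ l + 1) (c : ℝ) :
    (taylor c g).coeff l = g.coeff l + (l + 1) * g.coeff (l + 1) * c := by
  have hd : (hasseDeriv l g).natDegree < 2 :=
    lt_of_le_of_lt (natDegree_hasseDeriv_le g l) (by omega)
  rw [taylor_coeff, eval_eq_sum_range' hd]
  simp [Finset.sum_range_succ, hasseDeriv_coeff, add_comm 1 l]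

theorem dif {g : ℝ[X]} {l : ℕ} (h : g.natDegree ≤ l + 1) :
    (taylor 1 g - taylor (-1) g).natDegree ≤ l ∧
      (taylor 1 g - taylor (-1) g).coeff l = 2 * (l + 1) * g.coeff (l + 1) := by
  refine ⟨natDegree_le_iff_coeff_eq_zero.2 fun k hk => ?_, ?_⟩
  · rw [coeff_sub, tay_top (by omega), tay_top (by omega), sub_self]
  · rw [coeff_sub, tay_sub h, tay_sub h]; ring

theorem eg (p p' : Fin n → ℝ[X]) (t q' : ℝ[X]) (M m : ℕ)
    (h : ∀ s r : ℝ, (r = s + 1 ∨ r = s - 1) →
      2 * ∑ i, (p i).eval s * (p' i).eval r + t.eval s * q'.eval r = 0)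
    (hp : ∀ i, (p i).natDegree ≤ M) (h1 : q'.natDegree ≤ m) (h2 : q'.coeff m ≠ 0) :
    (∀ k, m < k → (∀ i, (p' i).natDegree ≤ k) → ∑ i, (p i).coeff M * (p' i).coeff k = 0) ∧
    ((∀ i, (p' i).natDegree ≤ m + 1) → t.natDegree ≤ M ∧
      2 * ∑ i, (p i).coeff M * ofs (p' i) q' m + t.coeff M = 0) := by
  have hq : q' ≠ 0 := fun e => h2 (by rw [e, coeff_zero])
  have dq := OneA.deg_eq h1 h2
  refine ⟨fun k hk hd => ?_, fun hd => ?_⟩
  · obtain ⟨l, rfl⟩ : ∃ l, k = l + 1 + m := ⟨k - m - 1, by omega⟩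
    have e : ∀ i, p' i / q' * q' + p' i % q' = p' i := fun i => by
      rw [mul_comm]; exact EuclideanDomain.div_add_mod _ _
    have hr : ∀ i, (p' i % q').degree < m := fun i => dq ▸ degree_mod_lt _ hq
    have hz : ∀ i k, m ≤ k → (p' i % q').coeff k = 0 := fun i =>
      (degree_lt_iff_coeff_zero _ _).1 (hr i)
    have hg : ∀ i, (p' i / q').natDegree ≤ l + 1 ∧
        (p' i / q').coeff (l + 1) * q'.coeff m = (p' i).coeff (l + 1 + m) := fun i => by
      have := quo (N := l + 1) (eq_sub_of_add_eq (e i)) h1 h2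
        (natDegree_le_iff_coeff_eq_zero.2 fun k hk => by
          rw [coeff_sub, hz i k (by omega), coeff_eq_zero_of_natDegree_lt ((hd i).trans_lt hk),
            sub_zero])
      rwa [coeff_sub, hz i _ (by omega), sub_zero] at this
    have b := (both (g := fun i => p' i / q') (r := fun i => p' i % q')
      (by simpa only [e] using h) hp h1 h2 hr).2 (M + l + 1) (by omega)
    rw [coeff_X_mul, (sum_top hp fun i => (dif (hg i).1).1).2] at b
    have e3 : 2 * ((l : ℝ) + 1) * ∑ i, (p i).coeff M * (p' i).coeff (l + 1 + m) =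
        (∑ i, (p i).coeff M * (taylor 1 (p' i / q') - taylor (-1) (p' i / q')).coeff l) *
          q'.coeff m := by
      rw [Finset.mul_sum, Finset.sum_mul]
      exact Finset.sum_congr rfl fun i _ => by rw [(dif (hg i).1).2, ← (hg i).2]; ring
    rw [b, zero_mul] at e3
    exact (mul_eq_zero.1 e3).resolve_left (by positivity)
  · set L : Fin n → ℝ := fun i => slp (p' i) q' m
    set b : Fin n → ℝ := fun i => ofs (p' i) q' m
    obtain ⟨a1, a2⟩ := both (g := fun i => C (L i) * X + C (b i))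
      (r := fun i => p' i - (C (L i) * X + C (b i)) * q')
      (by simpa only [add_sub_cancel] using h) hp h1 h2
      fun i => dq ▸ OneA.asy_deg (hd i) h1 h2
    have tc : ∀ i (c : ℝ), taylor c (C (L i) * X + C (b i)) = C (L i) * (X + C c) + C (b i) :=
      fun i c => by simp [taylor_mul]
    simp only [tc] at a1 a2
    set S : ℝ[X] := ∑ i, p i * C (L i) with hS
    set B : ℝ[X] := ∑ i, p i * C (b i) with hB
    have e1 : ∑ i, p i * (C (L i) * (X + C 1) + C (b i) - (C (L i) * (X + C (-1)) + C (b i))) =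
        C 2 * S := by
      rw [hS, Finset.mul_sum]
      exact Finset.sum_congr rfl fun i _ => by
        rw [map_neg, map_one, show (C 2 : ℝ[X]) = 2 from rfl]; ring
    have e2 : ∑ i, p i * (C (L i) * (X + C 1) + C (b i)) = X * S + S + B := by
      rw [hS, hB, Finset.mul_sum, ← Finset.sum_add_distrib, ← Finset.sum_add_distrib]
      exact Finset.sum_congr rfl fun i _ => by rw [map_one]; ring
    rw [e1] at a2
    rw [e2] at a1
    have z : ∀ k, M ≤ k → (X * S).coeff k = 0 := fun k hk => by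
      have := a2 k hk
      rw [mul_left_comm, coeff_C_mul] at this
      linarith
    have w : ∀ k, M ≤ k → 2 * B.coeff k + t.coeff k = 0 := fun k hk => by
      have h3 := coeff_eq_zero_of_natDegree_lt (n := k + 1) (a1.trans_lt (by omega))
      have h4 := z (k + 1) (by omega)
      rw [coeff_X_mul] at h3 h4
      rw [coeff_add, coeff_C_mul, coeff_add, coeff_add, z k hk, h4] at h3
      linarith
    obtain ⟨s1, s2⟩ := sum_top (a := fun i => C (b i)) (m := 0) hp fun i => (natDegree_C _).le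
    refine ⟨natDegree_le_iff_coeff_eq_zero.2 fun k hk => ?_, ?_⟩
    · have := w k hk.le
      rw [coeff_eq_zero_of_natDegree_lt (p := B) (lt_of_le_of_lt s1 hk)] at this
      linarith
    · have := w M le_rfl
      simp only [add_zero, coeff_C_zero] at s2
      rwa [hB, s2] at this

end Pool.Agent.MP_66cee2_co.H83
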